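import Pool.Agent.H4.TD.Side

namespace Pool.Agent.Results.MP_bb4a86_co.BipartiteFour

open SimpleGraph

/-- `G` has a `K_{3,3}` minor: there are six pairwise disjoint sets of vertices `X 0, X 1, X 2`,
`Y 0, Y 1, Y 2`, each inducing a connected subgraph, such that for all `i, j` some edge of `G` joins
`X i` to `Y j`. -/
def HasK33Minor {V : Type} (G : SimpleGraph V) : Prop :=
  ∃ X Y : Fin 3 → Set V,
    (∀ i, (G.induce (X i)).Connected) ∧ (∀ j, (G.induce (Y j)).Connected) ∧
    (∀ i j, i ≠ j → Disjoint (X i) (X j)) ∧ (∀ i j, i ≠ j → Disjoint (Y i) (Y j)) ∧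
    (∀ i j, Disjoint (X i) (Y j)) ∧ (∀ i j, ∃ x ∈ X i, ∃ y ∈ Y j, G.Adj x y)

/-- Every vertex has a neighbour in `S`. -/
def TotalDominating {V : Type} (G : SimpleGraph V) (S : Finset V) : Prop :=
  ∀ v, ∃ s ∈ S, G.Adj v s

theorem connected_of_star {V : Type} {G : SimpleGraph V} (z : V) (h : ∀ w, w = z ∨ G.Adj z w) :
    G.Connected := by
  rw [SimpleGraph.connected_iff_exists_forall_reachable]
  refine ⟨z, fun w => ?_⟩
  rcases h w with rfl | e
  · exact SimpleGraph.Reachable.refl _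
  · exact e.reachable

theorem common {V : Type} {G : SimpleGraph V} {P : Set V}
    (hbip : ∀ u v, G.Adj u v → (u ∈ P ↔ v ∉ P)) (hconn : G.Connected)
    (hd : ∀ u v, G.dist u v ≤ 3) {u v : V} (huv : u ≠ v) (hs : u ∈ P ↔ v ∈ P) :
    ∃ w, G.Adj u w ∧ G.Adj v w := by
  obtain ⟨p, hp⟩ := hconn.exists_walk_length_eq_dist u v
  have hl : p.length ≤ 3 := hp ▸ hd u v
  clear hp
  match p, hl with
  | .nil, _ => exact absurd rfl huv
  | .cons h .nil, _ =>
    have := hbip _ _ h
    tauto
  | .cons h (.cons h' .nil), _ => exact ⟨_, h, h'.symm⟩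
  | .cons h (.cons h' (.cons h'' .nil)), _ =>
    have e1 := hbip _ _ h
    have e2 := hbip _ _ h'
    have e3 := hbip _ _ h''
    tauto
  | .cons _ (.cons _ (.cons _ (.cons _ _))), hl =>
    simp [SimpleGraph.Walk.length_cons] at hl
    omega

theorem upper (V : Type) [Finite V] [Nontrivial V] (G : SimpleGraph V)
    (hconn : G.Connected) (hb : G.IsBipartite) (hd : ∀ u v, G.dist u v ≤ 3)
    (hK : ¬ HasK33Minor G) :
    ∃ S : Finset V, S.card ≤ 4 ∧ TotalDominating G S := by
  classical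
  obtain ⟨c⟩ := hb
  let P : Set V := {v | c v = 0}
  have hbip : ∀ u v, G.Adj u v → (u ∈ P ↔ v ∉ P) := by
    intro u v h
    have := c.valid h
    change c u = 0 ↔ ¬ (c v = 0)
    have h1 := Fin.isLt (c u)
    have h2 := Fin.isLt (c v)
    rw [Fin.ext_iff, Fin.ext_iff]
    rw [Ne, Fin.ext_iff] at this
    simp only [Fin.val_zero] at *
    omega
  have hdeg : ∀ u, ∃ w, G.Adj u w := fun u => by
    obtain ⟨w, hw⟩ := hconn.preconnected.exists_adj_of_nontrivial u
    exact ⟨w, hw⟩
  have hK' : ¬ Pool.Agent.H4.TD.HasK33Minor G := hK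
  have hP : P.Nonempty := by
    obtain ⟨u⟩ := hconn.nonempty
    obtain ⟨w, hw⟩ := hdeg u
    by_cases h : u ∈ P
    · exact ⟨u, h⟩
    · exact ⟨w, by by_contra hw'; exact h ((hbip u w hw).2 hw')⟩
  have hQ : (Pᶜ).Nonempty := by
    obtain ⟨u, hu⟩ := hP
    obtain ⟨w, hw⟩ := hdeg u
    exact ⟨w, (hbip u w hw).1 hu⟩
  obtain ⟨a, b, ha, hb', hab⟩ := Pool.Agent.H4.TD.side (P := P) hbip hP hdeg
    (fun u hu v hv huv => common hbip hconn hd huv (by tauto))
    (fun u hu v hv huv => common hbip hconn hd huv (by tauto)) hK'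
  obtain ⟨a', b', ha', hb'', hab'⟩ := Pool.Agent.H4.TD.side (P := Pᶜ)
    (fun u v h => by
      have := hbip u v h
      simp only [Set.mem_compl_iff]
      tauto) hQ hdeg
    (fun u hu v hv huv => common hbip hconn hd huv (by
      simp only [Set.mem_compl_iff] at hu hv
      tauto))
    (fun u hu v hv huv => common hbip hconn hd huv (by
      simp only [Set.mem_compl_iff] at hu hv
      tauto)) hK'
  refine ⟨{a, b, a', b'}, ?_, fun v => ?_⟩
  · exact Finset.card_le_four
  · by_cases h : v ∈ P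
    · rcases hab v h with e | e
      · exact ⟨a, by simp, e⟩
      · exact ⟨b, by simp, e⟩
    · rcases hab' v h with e | e
      · exact ⟨a', by simp, e⟩
      · exact ⟨b', by simp, e⟩

/-- Adjacency of `theta n`. -/
def thAdj (n : ℕ) : (Fin n × Bool) ⊕ Bool → (Fin n × Bool) ⊕ Bool → Prop
  | .inr x, .inl (_, y) => x = y
  | .inl (_, y), .inr x => x = y
  | .inl (i, x), .inl (j, y) => i = j ∧ x ≠ y
  | .inr _, .inr _ => False

/-- The graph made of `n` paths of length three joining the vertices `inr false` and `inr true`: the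
`i`-th path is `inr false, inl (i, false), inl (i, true), inr true`. -/
def theta (n : ℕ) : SimpleGraph ((Fin n × Bool) ⊕ Bool) where
  Adj := thAdj n
  symm := ⟨by
    rintro (⟨i, x⟩ | x) (⟨j, y⟩ | y) h
    · exact ⟨h.1.symm, h.2.symm⟩
    · exact h
    · exact h
    · exact h⟩
  loopless := ⟨by
    rintro (⟨i, x⟩ | x) h
    · exact h.2 rfl
    · exact h⟩

theorem e1 {n : ℕ} (i : Fin n) (x : Bool) : (theta n).Adj (.inr x) (.inl (i, x)) := rfl
theorem e2 {n : ℕ} (i : Fin n) {x y : Bool} (h : x ≠ y) :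
    (theta n).Adj (.inl (i, x)) (.inl (i, y)) := ⟨rfl, h⟩

theorem th_bip (n : ℕ) : (theta n).IsBipartite := by
  refine ⟨⟨fun v => match v with
    | .inl (_, x) => if x then 0 else 1
    | .inr x => if x then 1 else 0, ?_⟩⟩
  rintro (⟨i, x⟩ | x) (⟨j, y⟩ | y) h
  · have h2 : x ≠ y := h.2
    cases x <;> cases y <;> simp_all
  · have h2 : y = x := h
    subst h2
    cases y <;> simp
  · have h2 : x = y := h
    subst h2
    cases x <;> simp
  · exact h.elim

theorem walk3 {V : Type} {G : SimpleGraph V} {u v : V}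
    (h : u = v ∨ G.Adj u v ∨ (∃ w, G.Adj u w ∧ G.Adj w v) ∨
      (∃ w x, G.Adj u w ∧ G.Adj w x ∧ G.Adj x v)) : ∃ p : G.Walk u v, p.length ≤ 3 := by
  rcases h with rfl | h | ⟨w, h1, h2⟩ | ⟨w, x, h1, h2, h3⟩
  · exact ⟨Walk.nil, by simp⟩
  · exact ⟨Walk.cons h Walk.nil, by simp⟩
  · exact ⟨Walk.cons h1 (Walk.cons h2 Walk.nil), by simp⟩
  · exact ⟨Walk.cons h1 (Walk.cons h2 (Walk.cons h3 Walk.nil)), by simp⟩

theorem th_walk (m : ℕ) (u v : (Fin (m + 3) × Bool) ⊕ Bool) :
    ∃ p : (theta (m + 3)).Walk u v, p.length ≤ 3 := by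
  apply walk3
  have nn : ∀ x : Bool, x ≠ !x := by decide
  have nn' : ∀ x : Bool, (!x) ≠ x := by decide
  rcases u with ⟨i, x⟩ | x <;> rcases v with ⟨j, y⟩ | y
  · by_cases h : x = y
    · subst h
      exact Or.inr (Or.inr (Or.inl ⟨.inr x, (e1 i x).symm, e1 j x⟩))
    · exact Or.inr (Or.inr (Or.inr ⟨.inl (i, y), .inr y, e2 i h, (e1 i y).symm, e1 j y⟩))
  · by_cases h : x = y
    · subst h
      exact Or.inr (Or.inl (e1 i x).symm)
    · exact Or.inr (Or.inr (Or.inl ⟨.inl (i, y), e2 i h, (e1 i y).symm⟩))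
  · by_cases h : x = y
    · subst h
      exact Or.inr (Or.inl (e1 j x))
    · exact Or.inr (Or.inr (Or.inl ⟨.inl (j, x), e1 j x, e2 j h⟩))
  · by_cases h : x = y
    · exact Or.inl (by rw [h])
    · exact Or.inr (Or.inr (Or.inr ⟨.inl (0, x), .inl (0, y), e1 0 x, e2 0 h, (e1 0 y).symm⟩))

theorem th_conn (m : ℕ) : (theta (m + 3)).Connected := by
  have : Nonempty ((Fin (m + 3) × Bool) ⊕ Bool) := ⟨.inr true⟩
  exact ⟨fun u v => (th_walk m u v).choose.reachable⟩

theorem th_dist (m : ℕ) (u v : (Fin (m + 3) × Bool) ⊕ Bool) :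
    (theta (m + 3)).dist u v ≤ 3 := by
  obtain ⟨p, hp⟩ := th_walk m u v
  exact (SimpleGraph.dist_le p).trans hp

theorem th_dom (m : ℕ) (S : Finset ((Fin (m + 3) × Bool) ⊕ Bool))
    (h : TotalDominating (theta (m + 3)) S) : 4 ≤ S.card := by
  have h1 : ∀ x : Bool, ∃ i, Sum.inl (i, x) ∈ S := by
    intro x
    obtain ⟨s, hs, ha⟩ := h (.inr x)
    rcases s with ⟨i, y⟩ | y
    · have : x = y := ha
      subst this
      exact ⟨i, hs⟩
    · exact ha.elim
  have h2 : ∀ x : Bool, Sum.inr x ∉ S → ∀ i, Sum.inl (i, !x) ∈ S := by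
    intro x hx i
    obtain ⟨s, hs, ha⟩ := h (.inl (i, x))
    rcases s with ⟨j, y⟩ | y
    · have h3 : i = j := ha.1
      have h4 : x ≠ y := ha.2
      subst h3
      have : y = !x := by cases x <;> cases y <;> simp_all
      rw [← this]; exact hs
    · have : y = x := ha
      subst this
      exact absurd hs hx
  have three : ∀ x : Bool, Sum.inr x ∉ S → 4 ≤ S.card := by
    intro x hx
    obtain ⟨i, hi⟩ := h1 x
    have hsub : ({Sum.inl (i, x), Sum.inl (0, !x), Sum.inl (1, !x), Sum.inl (2, !x)} :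
        Finset ((Fin (m + 3) × Bool) ⊕ Bool)) ⊆ S := by
      intro v hv
      simp only [Finset.mem_insert, Finset.mem_singleton] at hv
      rcases hv with rfl | rfl | rfl | rfl
      · exact hi
      · exact h2 x hx _
      · exact h2 x hx _
      · exact h2 x hx _
    have hcard : ({Sum.inl (i, x), Sum.inl (0, !x), Sum.inl (1, !x), Sum.inl (2, !x)} :
        Finset ((Fin (m + 3) × Bool) ⊕ Bool)).card = 4 := by
      have a01 : (0 : Fin (m + 3)) ≠ 1 := by simp
      have a02 : (0 : Fin (m + 3)) ≠ 2 := by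
        simp [Fin.ext_iff]
        rw [Nat.mod_eq_of_lt (by omega)]
        omega
      have a12 : (1 : Fin (m + 3)) ≠ 2 := by
        simp [Fin.ext_iff]
        rw [Nat.mod_eq_of_lt (by omega)]
        omega
      have nn : x ≠ !x := by cases x <;> simp
      rw [Finset.card_insert_of_notMem, Finset.card_insert_of_notMem,
        Finset.card_insert_of_notMem, Finset.card_singleton]
      · simp [a12]
      · simp [a01, a02]
      · simp
    calc 4 = _ := hcard.symm
      _ ≤ S.card := Finset.card_le_card hsub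
  by_cases hf : Sum.inr false ∈ S
  · by_cases ht : Sum.inr true ∈ S
    · obtain ⟨i, hi⟩ := h1 false
      obtain ⟨j, hj⟩ := h1 true
      have hsub : ({Sum.inl (i, false), Sum.inl (j, true), Sum.inr false, Sum.inr true} :
          Finset ((Fin (m + 3) × Bool) ⊕ Bool)) ⊆ S := by
        intro v hv
        simp only [Finset.mem_insert, Finset.mem_singleton] at hv
        rcases hv with rfl | rfl | rfl | rfl <;> assumption
      have hcard : ({Sum.inl (i, false), Sum.inl (j, true), Sum.inr false, Sum.inr true} :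
          Finset ((Fin (m + 3) × Bool) ⊕ Bool)).card = 4 := by
        rw [Finset.card_insert_of_notMem, Finset.card_insert_of_notMem,
          Finset.card_insert_of_notMem, Finset.card_singleton]
        · simp
        · simp
        · simp
      calc 4 = _ := hcard.symm
        _ ≤ S.card := Finset.card_le_card hsub
    · exact three true ht
  · exact three false hf

theorem bnot {a b : Bool} (h : a ≠ b) : b = !a := by
  cases a <;> cases b <;> simp_all

theorem idx {n : ℕ} (S : Set ((Fin n × Bool) ⊕ Bool)) (hS : ((theta n).induce S).Connected)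
    (hr : ∀ b, Sum.inr b ∉ S) : ∃ i, ∀ v ∈ S, ∃ x, v = Sum.inl (i, x) := by
  obtain ⟨u, hu⟩ := hS.nonempty
  rcases u with ⟨i, x⟩ | b
  · have key : ∀ {a b : S} (w : ((theta n).induce S).Walk a b),
        (∃ x, a.1 = Sum.inl (i, x)) → ∃ x, b.1 = Sum.inl (i, x) := by
      intro a b w
      induction w with
      | nil => exact id
      | @cons u v _ h _ ih =>
        rintro ⟨x, hx⟩
        apply ih
        have h' : (theta n).Adj u.1 v.1 := h
        rcases v with ⟨⟨j, y⟩ | y, hv⟩
        · rw [hx] at h'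
          have h1 : i = j := h'.1
          exact ⟨y, by rw [h1]⟩
        · exact absurd hv (hr y)
    refine ⟨i, fun v hv => ?_⟩
    obtain ⟨w⟩ := hS.preconnected ⟨_, hu⟩ ⟨v, hv⟩
    exact key w ⟨x, rfl⟩
  · exact absurd hu (hr b)

theorem bad {n : ℕ} (S : Set ((Fin n × Bool) ⊕ Bool)) (hS : ((theta n).induce S).Connected)
    (hr : ∀ b, Sum.inr b ∉ S) (Z : Fin 3 → Set ((Fin n × Bool) ⊕ Bool))
    (dZ : ∀ i j, i ≠ j → Disjoint (Z i) (Z j)) (hd : ∀ j, Disjoint S (Z j))
    (e : ∀ j, ∃ x ∈ S, ∃ y ∈ Z j, (theta n).Adj x y) : False := by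
  obtain ⟨i, hi⟩ := idx S hS hr
  choose x hx z hz hadj using e
  have hpq : ∃ p q, ∀ j, z j = p ∨ z j = q := by
    obtain ⟨a, ha⟩ := hi (x 0) (hx 0)
    have haS : Sum.inl (i, a) ∈ S := ha ▸ hx 0
    by_cases hb : Sum.inl (i, !a) ∈ S
    · refine ⟨Sum.inr false, Sum.inr true, fun j => ?_⟩
      rcases hzj : z j with ⟨k, y⟩ | y
      · exfalso
        obtain ⟨c, hc⟩ := hi (x j) (hx j)
        have h := hadj j
        rw [hc, hzj] at h
        have hk : i = k := h.1
        subst hk
        have hmem : Sum.inl (i, y) ∈ S := by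
          by_cases hya : a = y
          · rw [← hya]; exact haS
          · rw [bnot hya]; exact hb
        exact Set.disjoint_left.mp (hd j) hmem (hzj ▸ hz j)
      · cases y
        · left; rfl
        · right; rfl
    · refine ⟨Sum.inl (i, !a), Sum.inr a, fun j => ?_⟩
      obtain ⟨c, hc⟩ := hi (x j) (hx j)
      have hca : a = c := by
        by_contra hne
        have h1 := hx j
        rw [hc, bnot hne] at h1
        exact hb h1
      subst hca
      have h := hadj j
      rw [hc] at h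
      rcases hzj : z j with ⟨k, y⟩ | y
      · rw [hzj] at h
        have hk : i = k := h.1
        have hy : a ≠ y := h.2
        left
        rw [bnot hy, hk]
      · rw [hzj] at h
        have hy : y = a := h
        right
        rw [hy]
  obtain ⟨p, q, hpq⟩ := hpq
  have d01 : z 0 ≠ z 1 := fun h =>
    Set.disjoint_left.mp (dZ 0 1 (by decide)) (hz 0) (h ▸ hz 1)
  have d02 : z 0 ≠ z 2 := fun h =>
    Set.disjoint_left.mp (dZ 0 2 (by decide)) (hz 0) (h ▸ hz 2)
  have d12 : z 1 ≠ z 2 := fun h =>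
    Set.disjoint_left.mp (dZ 1 2 (by decide)) (hz 1) (h ▸ hz 2)
  rcases hpq 0 with h0 | h0 <;> rcases hpq 1 with h1 | h1 <;> rcases hpq 2 with h2 | h2
  · exact d01 (h0.trans h1.symm)
  · exact d01 (h0.trans h1.symm)
  · exact d02 (h0.trans h2.symm)
  · exact d12 (h1.trans h2.symm)
  · exact d12 (h1.trans h2.symm)
  · exact d02 (h0.trans h2.symm)
  · exact d01 (h0.trans h1.symm)
  · exact d01 (h0.trans h1.symm)

theorem th_minor (n : ℕ) : ¬ HasK33Minor (theta n) := by
  rintro ⟨X, Y, hX, hY, dX, dY, dXY, e⟩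
  have hX' : ∀ i, ∃ b, Sum.inr b ∈ X i := by
    intro i
    by_contra hcon
    push Not at hcon
    exact bad (X i) (hX i) hcon Y dY (fun j => dXY i j) (fun j => e i j)
  choose b hb using hX'
  obtain ⟨i, j, hij, hbij⟩ := Fintype.exists_ne_map_eq_of_card_lt b (by simp)
  exact Set.disjoint_left.mp (dX i j hij) (hb i) (hbij ▸ hb j)

/-- Bipartite graphs of diameter at most three without a `K_{3,3}` minor: the maximum of the total
domination number is exactly `4`, also for arbitrarily large order. -/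
theorem result :
    (∀ (V : Type) [Finite V] [Nontrivial V] (G : SimpleGraph V), G.Connected → G.IsBipartite →
      (∀ u v, G.dist u v ≤ 3) → ¬ HasK33Minor G →
      ∃ S : Finset V, S.card ≤ 4 ∧ TotalDominating G S) ∧
    (∀ m : ℕ, (theta (m + 3)).Connected ∧ (theta (m + 3)).IsBipartite ∧
      (∀ u v, (theta (m + 3)).dist u v ≤ 3) ∧ ¬ HasK33Minor (theta (m + 3)) ∧
      ∀ S : Finset ((Fin (m + 3) × Bool) ⊕ Bool),
        TotalDominating (theta (m + 3)) S → 4 ≤ S.card) :=
  ⟨fun V _ _ G h1 h2 h3 h4 => upper V G h1 h2 h3 h4,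
    fun m => ⟨th_conn m, th_bip (m + 3), th_dist m, th_minor (m + 3), th_dom m⟩⟩

end Pool.Agent.Results.MP_bb4a86_co.BipartiteFour
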