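import Mathlib

/-!
# MP_bb4a86_co, Q1: from radius two to diameter three by contracting a closed neighbourhood

Every finite connected planar graph `G` (given by a rotation system on the sphere) of diameter at
most three with at least two vertices has total domination number at most `2`, or it has a vertex
`v` such that the contraction of the closed neighbourhood of `v` has radius at most two and
diameter at most three, and a total dominating set of size `r` of the contraction gives one of size
at most `r + 4` of `G`. With the known bound `r = 5` for planar graphs of radius two this gives `9`.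
-/

namespace Pool.Agent.Results.MP_bb4a86_co.ContractionBound

/-- `S` is a total dominating set of `G`: every vertex has a neighbour in `S`. -/
def IsTDS {V : Type} (G : SimpleGraph V) (S : Finset V) : Prop := ∀ v, ∃ u ∈ S, G.Adj v u

/-- `G` has a total dominating set with at most `k` elements, i.e. its total domination number
exists and is at most `k`. -/
def TotalDomLE {V : Type} (G : SimpleGraph V) (k : ℕ) : Prop :=
  ∃ S : Finset V, S.card ≤ k ∧ IsTDS G S

/-- The graph obtained from `G` by contracting the closed neighbourhood of `v` to one vertex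
`none` (loops and multiple edges are dropped). -/
def contract {V : Type} (G : SimpleGraph V) (v : V) :
    SimpleGraph (Option {w : V // w ≠ v ∧ ¬ G.Adj v w}) where
  Adj a b :=
    match a, b with
    | some a, some b => G.Adj a b
    | none, some b => ∃ u, G.Adj v u ∧ G.Adj u b
    | some a, none => ∃ u, G.Adj v u ∧ G.Adj u a
    | none, none => False
  symm := ⟨fun a b => by
    rcases a with _ | a <;> rcases b with _ | b
    · exact id
    · exact id
    · exact id
    · exact fun h => h.symm⟩
  loopless := ⟨fun a => by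
    rcases a with _ | a
    · exact id
    · exact G.irrefl⟩

/-- The face permutation of a rotation: after the dart `d` from `x` to `y` comes the successor at
`y` of the reversed dart. -/
def face {V : Type} {G : SimpleGraph V} (σ : Equiv.Perm G.Dart) : Equiv.Perm G.Dart :=
  (Equiv.mk SimpleGraph.Dart.symm SimpleGraph.Dart.symm SimpleGraph.Dart.symm_symm
    SimpleGraph.Dart.symm_symm).trans σ

/-- `σ` is a rotation system of `G` on the sphere: it permutes cyclically the darts at each vertex,
and `vertices - edges + faces = 2`, the faces being the cycles of the face permutation. -/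
structure IsSphereRotation {V : Type} (G : SimpleGraph V) (σ : Equiv.Perm G.Dart) : Prop where
  fst : ∀ d, (σ d).fst = d.fst
  cyc : ∀ d e : G.Dart, d.fst = e.fst → σ.SameCycle d e
  euler : (Nat.card V : ℤ) - Nat.card G.edgeSet +
    Nat.card (Quotient (Equiv.Perm.SameCycle.setoid (face σ))) = 2

/-- `G` has a vertex of degree at most `4`, or a vertex of degree `5` such that each of its
neighbours is adjacent to another of its neighbours. -/
def GoodVertex {V : Type} (G : SimpleGraph V) : Prop :=
  ∃ v : V, (G.neighborSet v).ncard ≤ 4 ∨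
    ((G.neighborSet v).ncard = 5 ∧ ∀ u, G.Adj v u → ∃ u', G.Adj v u' ∧ G.Adj u u')

open Classical in
/-- the contraction map -/
noncomputable def cmap {V : Type} (G : SimpleGraph V) (v : V) (w : V) :
    Option {w : V // w ≠ v ∧ ¬ G.Adj v w} :=
  if h : w ≠ v ∧ ¬ G.Adj v w then some ⟨w, h⟩ else none

theorem cmap_adj {V : Type} (G : SimpleGraph V) (v : V) {a b : V} (h : G.Adj a b) :
    cmap G v a = cmap G v b ∨ (contract G v).Adj (cmap G v a) (cmap G v b) := by
  unfold cmap
  by_cases ha : a ≠ v ∧ ¬ G.Adj v a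
  · by_cases hb : b ≠ v ∧ ¬ G.Adj v b
    · right
      rw [dif_pos ha, dif_pos hb]
      exact h
    · right
      rw [dif_pos ha, dif_neg hb]
      have hb' : G.Adj v b := by
        by_contra hc
        refine hb ⟨?_, hc⟩
        rintro rfl
        exact ha.2 h.symm
      exact ⟨b, hb', h.symm⟩
  · by_cases hb : b ≠ v ∧ ¬ G.Adj v b
    · right
      rw [dif_neg ha, dif_pos hb]
      have ha' : G.Adj v a := by
        by_contra hc
        refine ha ⟨?_, hc⟩
        rintro rfl
        exact hb.2 h
      exact ⟨a, ha', h⟩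
    · left
      rw [dif_neg ha, dif_neg hb]

theorem cmap_walk {V : Type} (G : SimpleGraph V) (v : V) {a b : V} (p : G.Walk a b) :
    ∃ q : (contract G v).Walk (cmap G v a) (cmap G v b), q.length ≤ p.length := by
  induction p with
  | nil => exact ⟨SimpleGraph.Walk.nil, le_rfl⟩
  | @cons x y z h p ih =>
    obtain ⟨q, hq⟩ := ih
    rcases cmap_adj G v h with h1 | h1
    · refine ⟨q.copy h1.symm rfl, ?_⟩
      rw [SimpleGraph.Walk.length_copy, SimpleGraph.Walk.length_cons]
      omega
    · refine ⟨SimpleGraph.Walk.cons h1 q, ?_⟩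
      rw [SimpleGraph.Walk.length_cons, SimpleGraph.Walk.length_cons]
      omega

theorem cmap_surj {V : Type} (G : SimpleGraph V) (v : V)
    (x : Option {w : V // w ≠ v ∧ ¬ G.Adj v w}) : ∃ w, cmap G v w = x := by
  rcases x with _ | x
  · exact ⟨v, by unfold cmap; rw [dif_neg (fun h => h.1 rfl)]⟩
  · exact ⟨x.1, by unfold cmap; rw [dif_pos x.2]⟩

theorem cmap_self {V : Type} (G : SimpleGraph V) (v : V) : cmap G v v = none := by
  unfold cmap
  rw [dif_neg (fun h => h.1 rfl)]

theorem cmap_nbr {V : Type} (G : SimpleGraph V) (v : V) {u : V} (h : G.Adj v u) :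
    cmap G v u = none := by
  unfold cmap
  rw [dif_neg (fun h' => h'.2 h)]

theorem contract_dist {V : Type} (G : SimpleGraph V) (hc : G.Connected)
    (hd : ∀ a b, G.dist a b ≤ 3) (v : V) :
    (contract G v).Connected ∧ (∀ a b, (contract G v).dist a b ≤ 3) ∧
      ∀ w, (contract G v).dist none w ≤ 2 := by
  refine ⟨?_, ?_, ?_⟩
  · have : Nonempty (Option {w : V // w ≠ v ∧ ¬ G.Adj v w}) := ⟨none⟩
    refine SimpleGraph.Connected.mk ?_
    intro a b
    obtain ⟨a, rfl⟩ := cmap_surj G v a
    obtain ⟨b, rfl⟩ := cmap_surj G v b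
    obtain ⟨p⟩ := hc.preconnected a b
    obtain ⟨q, _⟩ := cmap_walk G v p
    exact ⟨q⟩
  · intro a b
    obtain ⟨a, rfl⟩ := cmap_surj G v a
    obtain ⟨b, rfl⟩ := cmap_surj G v b
    obtain ⟨p, hp⟩ := (hc.preconnected a b).exists_walk_length_eq_dist
    obtain ⟨q, hq⟩ := cmap_walk G v p
    exact (SimpleGraph.dist_le q).trans (hq.trans (hp.le.trans (hd a b)))
  · intro w
    obtain ⟨w, rfl⟩ := cmap_surj G v w
    obtain ⟨p, hp⟩ := (hc.preconnected v w).exists_walk_length_eq_dist
    have h3 := hd v w
    rw [← hp] at h3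
    clear hp
    cases p with
    | nil =>
      rw [cmap_self, SimpleGraph.dist_self]
      omega
    | @cons x y z h p =>
      rw [SimpleGraph.Walk.length_cons] at h3
      obtain ⟨q, hq⟩ := cmap_walk G v p
      rw [← cmap_nbr G v h]
      exact (SimpleGraph.dist_le q).trans (hq.trans (by omega))

/-- Lifting a total dominating set from the contraction. -/
theorem lift {V : Type} [Finite V] (G : SimpleGraph V) (v u0 : V) (hu0 : G.Adj v u0)
    (T : Finset V) (hT5 : T.card ≤ 5) (hTn : ∀ u, G.Adj v u → u ∈ T)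
    (hT : ∀ u, G.Adj v u → ∃ t ∈ T, G.Adj u t) (r : ℕ) (h : TotalDomLE (contract G v) r) :
    TotalDomLE G (r + 4) := by
  classical
  have := Fintype.ofFinite V
  obtain ⟨D, hDr, hD⟩ := h
  set E : Finset V := Finset.univ.filter
    (fun w => ∃ h : w ≠ v ∧ ¬ G.Adj v w, some ⟨w, h⟩ ∈ D) with hE
  have hmem : ∀ w, w ∈ E ↔ ∃ h : w ≠ v ∧ ¬ G.Adj v w, some ⟨w, h⟩ ∈ D := fun w => by
    rw [hE]; simp
  have hcard : E.card ≤ (D.erase none).card := by
    refine Finset.card_le_card_of_injOn (cmap G v) ?_ ?_
    · intro w hw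
      obtain ⟨h, hw'⟩ := (hmem w).1 hw
      have : cmap G v w = some ⟨w, h⟩ := by unfold cmap; rw [dif_pos h]
      rw [this]
      exact Finset.mem_coe.2 (Finset.mem_erase.2 ⟨by simp, hw'⟩)
    · intro w hw w' hw' hww
      obtain ⟨h, _⟩ := (hmem w).1 hw
      obtain ⟨h', _⟩ := (hmem w').1 hw'
      have e1 : cmap G v w = some ⟨w, h⟩ := by unfold cmap; rw [dif_pos h]
      have e2 : cmap G v w' = some ⟨w', h'⟩ := by unfold cmap; rw [dif_pos h']
      rw [e1, e2] at hww
      exact congrArg Subtype.val (Option.some.inj hww)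
  by_cases hn : none ∈ D
  · refine ⟨T ∪ E, ?_, ?_⟩
    · have h1 : (D.erase none).card = D.card - 1 := Finset.card_erase_of_mem hn
      have h2 : 1 ≤ D.card := Finset.card_pos.2 ⟨none, hn⟩
      have h3 := Finset.card_union_le T E
      omega
    · intro x
      by_cases hx : x ≠ v ∧ ¬ G.Adj v x
      · obtain ⟨y, hy, hxy⟩ := hD (some ⟨x, hx⟩)
        rcases y with _ | y
        · obtain ⟨u, hu1, hu2⟩ := hxy
          exact ⟨u, Finset.mem_union_left _ (hTn u hu1), hu2.symm⟩
        · exact ⟨y.1, Finset.mem_union_right _ ((hmem y.1).2 ⟨y.2, hy⟩), hxy⟩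
      · by_cases hxv : x = v
        · subst hxv
          exact ⟨u0, Finset.mem_union_left _ (hTn u0 hu0), hu0⟩
        · have hadj : G.Adj v x := by
            by_contra hc
            exact hx ⟨hxv, hc⟩
          obtain ⟨t, ht, hxt⟩ := hT x hadj
          exact ⟨t, Finset.mem_union_left _ ht, hxt⟩
  · refine ⟨insert v (insert u0 E), ?_, ?_⟩
    · have h1 : (D.erase none).card = D.card := by rw [Finset.erase_eq_of_notMem hn]
      have h2 := Finset.card_insert_le v (insert u0 E)
      have h3 := Finset.card_insert_le u0 E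
      omega
    · intro x
      by_cases hx : x ≠ v ∧ ¬ G.Adj v x
      · obtain ⟨y, hy, hxy⟩ := hD (some ⟨x, hx⟩)
        rcases y with _ | y
        · exact absurd hy hn
        · exact ⟨y.1, Finset.mem_insert_of_mem (Finset.mem_insert_of_mem
            ((hmem y.1).2 ⟨y.2, hy⟩)), hxy⟩
      · by_cases hxv : x = v
        · subst hxv
          exact ⟨u0, by simp, hu0⟩
        · have hadj : G.Adj v x := by
            by_contra hc
            exact hx ⟨hxv, hc⟩
          exact ⟨v, by simp, hadj.symm⟩

theorem face_apply {V : Type} {G : SimpleGraph V} (σ : Equiv.Perm G.Dart) (d : G.Dart) :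
    face σ d = σ d.symm := rfl

/-- number of classes as a sum -/
theorem card_quot {α : Type} [Fintype α] [DecidableEq α] (s : Setoid α) :
    (Nat.card (Quotient s) : ℚ) = ∑ a : α, 1 / ((Set.ncard {b | s b a} : ℕ) : ℚ) := by
  classical
  rw [Nat.card_eq_fintype_card]
  rw [← Finset.sum_fiberwise (s := Finset.univ) (g := fun a : α => (Quotient.mk s a))
    (f := fun a : α => 1 / ((Set.ncard {b | s b a} : ℕ) : ℚ))]
  have key : ∀ q : Quotient s, ∑ a ∈ Finset.univ.filter (fun a : α => Quotient.mk s a = q),
      1 / ((Set.ncard {b | s b a} : ℕ) : ℚ) = 1 := by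
    intro q
    obtain ⟨a0, rfl⟩ := Quotient.exists_rep q
    have hset : (Finset.univ.filter (fun a : α => Quotient.mk s a = Quotient.mk s a0) : Set α)
        = {b | s b a0} := by
      ext b
      simp only [Finset.coe_filter, Finset.mem_univ, true_and, Set.mem_ofPred_eq]
      exact Quotient.eq
    have hcard : ((Finset.univ.filter
        (fun a : α => Quotient.mk s a = Quotient.mk s a0)).card : ℚ) =
        ((Set.ncard {b | s b a0} : ℕ) : ℚ) := by
      rw [← hset, Set.ncard_coe_finset]
    have h1 : ∀ a ∈ Finset.univ.filter (fun a : α => Quotient.mk s a = Quotient.mk s a0),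
        1 / ((Set.ncard {b | s b a} : ℕ) : ℚ) = 1 / ((Set.ncard {b | s b a0} : ℕ) : ℚ) := by
      intro a ha
      have ha' : s a a0 := Quotient.eq.1 (Finset.mem_filter.1 ha).2
      have : {b | s b a} = {b | s b a0} := by
        ext b
        exact ⟨fun h => s.trans h ha', fun h => s.trans h (s.symm ha')⟩
      rw [this]
    rw [Finset.sum_congr rfl h1, Finset.sum_const, nsmul_eq_mul, hcard]
    have hpos : 0 < Set.ncard {b | s b a0} :=
      (Set.ncard_pos (Set.toFinite _)).2 ⟨a0, s.refl a0⟩
    have : ((Set.ncard {b | s b a0} : ℕ) : ℚ) ≠ 0 := by exact_mod_cast hpos.ne'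
    field_simp
  rw [Finset.sum_congr rfl (fun q _ => key q)]
  simp

theorem adj_of_three {V : Type} {G : SimpleGraph V} {σ : Equiv.Perm G.Dart}
    (hs : ∀ d, (σ d).fst = d.fst) (d : G.Dart)
    (h3 : face σ (face σ (face σ d)) = d) : G.Adj (face σ d).snd d.fst := by
  have h1 : (face σ (face σ d)).fst = (face σ d).snd := by
    rw [face_apply σ (face σ d), hs]; rfl
  have h2 : (face σ (face σ (face σ d))).fst = (face σ (face σ d)).snd := by
    rw [face_apply σ (face σ (face σ d)), hs]; rfl
  rw [h3] at h2
  rw [h2, ← h1]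
  exact (face σ (face σ d)).adj

theorem face_fst {V : Type} {G : SimpleGraph V} {σ : Equiv.Perm G.Dart}
    (hs : ∀ d, (σ d).fst = d.fst) (d : G.Dart) : (face σ d).fst = d.snd := by
  rw [face_apply, hs]; rfl

theorem sphere_good {V : Type} [Finite V] (G : SimpleGraph V) (σ : Equiv.Perm G.Dart)
    (h : IsSphereRotation G σ) : GoodVertex G := by
  classical
  have := Fintype.ofFinite V
  by_contra hbad
  have hdeg : ∀ v, (G.neighborSet v).ncard = G.degree v := fun v => by
    rw [← SimpleGraph.card_neighborFinset_eq_degree, ← Set.ncard_coe_finset,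
      SimpleGraph.coe_neighborFinset]
  have h5 : ∀ v, 5 ≤ G.degree v := fun v => by
    by_contra hc
    exact hbad ⟨v, Or.inl (by rw [hdeg]; omega)⟩
  have hb : ∀ v, G.degree v = 5 → ∃ u, G.Adj v u ∧ ∀ u', G.Adj v u' → ¬ G.Adj u u' := by
    intro v hv
    by_contra hc
    push Not at hc
    exact hbad ⟨v, Or.inr ⟨by rw [hdeg]; exact hv, fun u hu => hc u hu⟩⟩
  have hs := h.fst
  -- no fixed points
  have hnofix : ∀ d : G.Dart, σ d ≠ d := by
    intro d hd
    have h1 : (Finset.univ.filter fun e : G.Dart => e.fst = d.fst) ⊆ {d} := by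
      intro e he
      rw [Finset.mem_filter] at he
      rw [Finset.mem_singleton]
      exact ((h.cyc d e he.2.symm).eq_of_left hd).symm
    have h2 := Finset.card_le_card h1
    rw [G.dart_fst_fiber_card_eq_degree, Finset.card_singleton] at h2
    have := h5 d.fst
    omega
  set φ := face σ with hφ
  have hfst : ∀ d, (φ d).fst = d.snd := face_fst hs
  have hne1 : ∀ d, φ d ≠ d := by
    intro d hd
    have := hfst d
    rw [hd] at this
    exact d.adj.ne this
  have hne2 : ∀ d, φ (φ d) ≠ d := by
    intro d hd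
    have h1 := hfst (φ d)
    rw [hd] at h1
    have h2 : φ d = d.symm := by
      apply SimpleGraph.Dart.ext
      apply Prod.ext
      · exact hfst d
      · exact h1.symm
    exact hnofix d.symm h2
  set L : G.Dart → ℕ := fun d => Set.ncard {b | Equiv.Perm.SameCycle.setoid φ b d} with hL
  have hmem : ∀ (n : ℕ) (d : G.Dart), (φ ^ n) d ∈ {b | Equiv.Perm.SameCycle.setoid φ b d} :=
    fun n d => Equiv.Perm.SameCycle.symm ⟨n, by simp⟩
  have hL3 : ∀ d, 3 ≤ L d := by
    intro d
    have h1 : ((({d, φ d, φ (φ d)} : Finset G.Dart)) : Set G.Dart) ⊆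
        {b | Equiv.Perm.SameCycle.setoid φ b d} := by
      intro b hb'
      simp only [Finset.coe_insert, Finset.coe_singleton, Set.mem_insert_iff,
        Set.mem_singleton_iff] at hb'
      rcases hb' with rfl | rfl | rfl
      · exact hmem 0 b
      · exact hmem 1 d
      · exact hmem 2 d
    have h2 := Set.ncard_le_ncard h1 (Set.toFinite _)
    rw [Set.ncard_coe_finset, Finset.card_eq_three.2
      ⟨d, φ d, φ (φ d), (hne1 d).symm, (hne2 d).symm, (hne1 (φ d)).symm, rfl⟩] at h2
    exact h2
  have hL4 : ∀ d, φ (φ (φ d)) ≠ d → 4 ≤ L d := by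
    intro d hd
    have h1 : ((({d, φ d, φ (φ d), φ (φ (φ d))} : Finset G.Dart)) : Set G.Dart) ⊆
        {b | Equiv.Perm.SameCycle.setoid φ b d} := by
      intro b hb'
      simp only [Finset.coe_insert, Finset.coe_singleton, Set.mem_insert_iff,
        Set.mem_singleton_iff] at hb'
      rcases hb' with rfl | rfl | rfl | rfl
      · exact hmem 0 b
      · exact hmem 1 d
      · exact hmem 2 d
      · exact hmem 3 d
    have h2 := Set.ncard_le_ncard h1 (Set.toFinite _)
    have h3 : ({d, φ d, φ (φ d), φ (φ (φ d))} : Finset G.Dart).card = 4 := by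
      rw [Finset.card_insert_of_notMem, Finset.card_eq_three.2
        ⟨φ d, φ (φ d), φ (φ (φ d)), (hne1 _).symm, (hne2 _).symm, (hne1 _).symm, rfl⟩]
      simp only [Finset.mem_insert, Finset.mem_singleton, not_or]
      exact ⟨(hne1 d).symm, (hne2 d).symm, fun h' => hd h'.symm⟩
    rw [Set.ncard_coe_finset, h3] at h2
    exact h2
  have hq3 : ∀ d, 1 / ((L d : ℕ) : ℚ) ≤ 1 / 3 := fun d => by
    have : (3 : ℚ) ≤ (L d : ℚ) := by exact_mod_cast hL3 d
    exact one_div_le_one_div_of_le (by norm_num) this
  have hq4 : ∀ d, φ (φ (φ d)) ≠ d → 1 / ((L d : ℕ) : ℚ) ≤ 1 / 3 - 1 / 12 := fun d hd => by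
    have : (4 : ℚ) ≤ (L d : ℚ) := by exact_mod_cast hL4 d hd
    exact (one_div_le_one_div_of_le (by norm_num) this).trans (by norm_num)
  -- corner sums
  have hcorner : ∀ v : V, 1 - (G.degree v : ℚ) / 2 +
      ∑ d ∈ Finset.univ.filter (fun d : G.Dart => d.fst = v), 1 / ((L d.symm : ℕ) : ℚ) ≤ 0 := by
    intro v
    have hc := G.dart_fst_fiber_card_eq_degree v
    rcases (h5 v).eq_or_lt with h6 | h6
    · obtain ⟨u, hu, hu'⟩ := hb v h6.symm
      set d0 : G.Dart := ⟨(v, u), hu⟩ with hd0
      set d1 : G.Dart := σ.symm d0 with hd1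
      have hsd1 : σ d1 = d0 := by rw [hd1, Equiv.apply_symm_apply]
      have hne : d1 ≠ d0 := fun h' => hnofix d0 (by rw [h'] at hsd1; exact hsd1)
      have hd1v : d1.fst = v := by
        have := hs d1
        rw [hsd1] at this
        exact this.symm
      have hb0 : φ (φ (φ d0.symm)) ≠ d0.symm := by
        intro h'
        have h1 := adj_of_three hs d0.symm h'
        have h2 : face σ d0.symm = σ d0 := by rw [face_apply, SimpleGraph.Dart.symm_symm]
        rw [h2] at h1
        have h3 : G.Adj v (σ d0).snd := by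
          have := (σ d0).adj
          rw [hs d0] at this
          exact this
        exact hu' _ h3 h1.symm
      have hb1 : φ (φ (φ d1.symm)) ≠ d1.symm := by
        intro h'
        have h1 := adj_of_three hs d1.symm h'
        have h2 : face σ d1.symm = d0 := by rw [face_apply, SimpleGraph.Dart.symm_symm, hsd1]
        rw [h2] at h1
        have h3 : G.Adj v d1.snd := by
          have := d1.adj
          rw [hd1v] at this
          exact this
        exact hu' _ h3 h1
      have hle : ∀ d ∈ Finset.univ.filter (fun d : G.Dart => d.fst = v),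
          1 / ((L d.symm : ℕ) : ℚ) ≤
            1 / 3 - (if d = d0 then 1 / 12 else 0) - (if d = d1 then 1 / 12 else 0) := by
        intro d _
        by_cases e0 : d = d0
        · rw [if_pos e0, if_neg (by rw [e0]; exact hne.symm), e0, sub_zero]
          exact hq4 _ hb0
        · by_cases e1 : d = d1
          · rw [if_neg e0, if_pos e1, e1, sub_zero]
            exact hq4 _ hb1
          · rw [if_neg e0, if_neg e1, sub_zero, sub_zero]
            exact hq3 _
      have hsum := Finset.sum_le_sum hle
      have m0 : d0 ∈ Finset.univ.filter (fun d : G.Dart => d.fst = v) :=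
        Finset.mem_filter.2 ⟨Finset.mem_univ _, rfl⟩
      have m1 : d1 ∈ Finset.univ.filter (fun d : G.Dart => d.fst = v) :=
        Finset.mem_filter.2 ⟨Finset.mem_univ _, hd1v⟩
      rw [Finset.sum_sub_distrib, Finset.sum_sub_distrib, Finset.sum_ite_eq', Finset.sum_ite_eq',
        if_pos m0, if_pos m1, Finset.sum_const, hc, nsmul_eq_mul] at hsum
      rw [← h6] at hsum ⊢
      norm_num at hsum ⊢
      linarith
    · have hle : ∀ d ∈ Finset.univ.filter (fun d : G.Dart => d.fst = v),
          1 / ((L d.symm : ℕ) : ℚ) ≤ 1 / 3 := fun d _ => hq3 _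
      have hsum := Finset.sum_le_sum hle
      rw [Finset.sum_const, hc, nsmul_eq_mul] at hsum
      have h7 : (6 : ℚ) ≤ (G.degree v : ℚ) := by exact_mod_cast h6
      linarith
  have htot := Finset.sum_le_sum (s := Finset.univ) (fun v _ => hcorner v)
  have hfib : ∑ v : V, ∑ d ∈ Finset.univ.filter (fun d : G.Dart => d.fst = v),
      1 / ((L d.symm : ℕ) : ℚ) = ∑ d : G.Dart, 1 / ((L d.symm : ℕ) : ℚ) :=
    Finset.sum_fiberwise _ _ _
  rw [Finset.sum_add_distrib, Finset.sum_sub_distrib, Finset.sum_const_zero,
    hfib, ← Finset.sum_div, Finset.sum_const, nsmul_eq_mul, mul_one,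
    Finset.card_univ] at htot
  have hF : (Nat.card (Quotient (Equiv.Perm.SameCycle.setoid φ)) : ℚ) =
      ∑ d : G.Dart, 1 / ((L d.symm : ℕ) : ℚ) := by
    rw [card_quot]
    exact (Equiv.sum_comp (Equiv.mk SimpleGraph.Dart.symm SimpleGraph.Dart.symm
      SimpleGraph.Dart.symm_symm SimpleGraph.Dart.symm_symm : Equiv.Perm G.Dart)
      (fun d => 1 / ((L d : ℕ) : ℚ))).symm
  have hE : (∑ v : V, (G.degree v : ℚ)) = 2 * (Nat.card G.edgeSet : ℚ) := by
    have h1 := G.sum_degrees_eq_twice_card_edges
    rw [Nat.card_eq_fintype_card, ← SimpleGraph.edgeFinset_card]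
    exact_mod_cast h1
  have heu := h.euler
  have heu' : (Nat.card V : ℚ) - (Nat.card G.edgeSet : ℚ) +
      (Nat.card (Quotient (Equiv.Perm.SameCycle.setoid φ)) : ℚ) = 2 := by
    exact_mod_cast heu
  rw [← hF, hE] at htot
  rw [Nat.card_eq_fintype_card (α := V)] at heu'
  linarith

/-- **From radius two to diameter three.** -/
theorem result (V : Type) [Finite V] [Nontrivial V] (G : SimpleGraph V)
    (hplane : ∃ σ : Equiv.Perm G.Dart, IsSphereRotation G σ) (hc : G.Connected)
    (hd : ∀ a b, G.dist a b ≤ 3) :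
    TotalDomLE G 2 ∨
      ∃ v : V, (∃ w, w ≠ v ∧ ¬ G.Adj v w) ∧ (contract G v).Connected ∧
        (∀ a b, (contract G v).dist a b ≤ 3) ∧ (∀ w, (contract G v).dist none w ≤ 2) ∧
        ∀ r : ℕ, TotalDomLE (contract G v) r → TotalDomLE G (r + 4) := by
  classical
  have := Fintype.ofFinite V
  obtain ⟨σ, hσ⟩ := hplane
  obtain ⟨v, hv⟩ := sphere_good G σ hσ
  obtain ⟨u0, hu0⟩ : ∃ u0, G.Adj v u0 := by
    obtain ⟨w, hw⟩ := exists_ne v
    obtain ⟨p⟩ := hc.preconnected v w
    cases p with
    | nil => exact absurd rfl hw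
    | @cons x y z h p => exact ⟨y, h⟩
  by_cases htriv : ∀ w, w ≠ v → G.Adj v w
  · left
    refine ⟨{v, u0}, Finset.card_le_two, ?_⟩
    intro x
    by_cases hx : x = v
    · subst hx
      exact ⟨u0, by simp, hu0⟩
    · exact ⟨v, by simp, (htriv x hx).symm⟩
  · right
    push Not at htriv
    obtain ⟨h1, h2, h3⟩ := contract_dist G hc hd v
    refine ⟨v, htriv, h1, h2, h3, fun r hr => ?_⟩
    have hN : (G.neighborSet v).ncard = (G.neighborFinset v).card := by
      rw [← Set.ncard_coe_finset, SimpleGraph.coe_neighborFinset]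
    rcases hv with hv | ⟨hv, hv'⟩
    · refine lift G v u0 hu0 (insert v (G.neighborFinset v)) ?_ ?_ ?_ r hr
      · have := Finset.card_insert_le v (G.neighborFinset v)
        omega
      · intro u hu
        exact Finset.mem_insert_of_mem ((G.mem_neighborFinset v u).2 hu)
      · intro u hu
        exact ⟨v, Finset.mem_insert_self _ _, hu.symm⟩
    · refine lift G v u0 hu0 (G.neighborFinset v) (by omega) ?_ ?_ r hr
      · intro u hu
        exact (G.mem_neighborFinset v u).2 hu
      · intro u hu
        obtain ⟨u', hu1, hu2⟩ := hv' u hu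
        exact ⟨u', (G.mem_neighborFinset v u').2 hu1, hu2⟩

end Pool.Agent.Results.MP_bb4a86_co.ContractionBound
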